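import Mathlib

/-!
# `ℓ`-adic regulators: definitions

Fix a prime `ℓ` and let `K = ℚ_ℓ`. `Regulators K` collects the regulators `r_ℓ` of the problem for the
smooth projective varieties `X` over number fields `k`; an object of `Var` is a pair of a number field
`k` and a smooth projective variety `X` over `k`. `IsRegulatorTheory` lists the known facts which are
used.
-/

set_option autoImplicit false

namespace Pool.Agent.TH121.RG

/-- The data of the problem. -/
structure Regulators (K : Type) [Field K] where
  /-- the pairs of a number field `k` and a smooth projective variety `X` over `k`, of pure dimension -/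
  Var : Type
  /-- the dimension -/
  dim : Var → ℤ
  /-- the motivic cohomology `H^i_M(X, ℚ(j))_hom ⊗ ℚ_ℓ` -/
  M : Var → ℤ → ℤ → Type
  [grpM : ∀ X i j, AddCommGroup (M X i j)]
  [modM : ∀ X i j, Module K (M X i j)]
  /-- the Galois cohomology `H^1(G_k, H^(i-1)(X, ℚ_ℓ(j)))` -/
  Gal : Var → ℤ → ℤ → Type
  [grpGal : ∀ X i j, AddCommGroup (Gal X i j)]
  [modGal : ∀ X i j, Module K (Gal X i j)]
  /-- the subspace `H^1_st` of the semistable classes -/
  st : ∀ X i j, Submodule K (Gal X i j)
  /-- the regulator `r_ℓ` -/
  r : ∀ X i j, M X i j →ₗ[K] Gal X i j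
  /-- `k = ℚ` -/
  IsOverQ : Var → Prop
  /-- `X` has a projective strictly semistable model over the ring of integers of `k` -/
  IsSemistable : Var → Prop
  /-- `X` is the spectrum of a number field -/
  IsPoint : Var → Prop

attribute [instance] Regulators.grpM Regulators.modM Regulators.grpGal Regulators.modGal

namespace Regulators

variable {K : Type} [Field K] (T : Regulators K)

/-- **The statement of the problem**, Q1, for `X`, `i`, `j`: the regulator is injective and its image is
`H^1_st`. -/
def QOneFor (X : T.Var) (i j : ℤ) : Prop :=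
  Function.Injective (T.r X i j) ∧ ∀ y, y ∈ T.st X i j ↔ ∃ m, T.r X i j m = y

/-- A pair of linear maps `α` on motivic cohomology and `β` on Galois cohomology, from `(X, i, j)` to
`(Y, i', j')`, compatible with the regulators, such that `β` maps semistable classes to semistable
classes; for example the maps given by an algebraic correspondence of degree `(i' - i) / 2 = j' - j`,
and the restriction and corestriction for an extension of number fields. -/
structure Transfer (X : T.Var) (i j : ℤ) (Y : T.Var) (i' j' : ℤ) where
  /-- the map on motivic cohomology -/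
  α : T.M X i j →ₗ[K] T.M Y i' j'
  /-- the map on Galois cohomology -/
  β : T.Gal X i j →ₗ[K] T.Gal Y i' j'
  comm : ∀ m, β (T.r X i j m) = T.r Y i' j' (α m)
  st : ∀ y ∈ T.st X i j, β y ∈ T.st Y i' j'

/-- `(X, i, j)` is a direct factor of the sum of the `(Y m, i' m, j' m)`: there are maps `f m` to them
and `g m` from them, as above, such that the sum of the compositions `g m ∘ f m` is the identity. -/
def IsFactor (X : T.Var) (i j : ℤ) {n : ℕ} (Y : Fin n → T.Var) (i' j' : Fin n → ℤ) : Prop :=
  ∃ (f : ∀ m, T.Transfer X i j (Y m) (i' m) (j' m))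
    (g : ∀ m, T.Transfer (Y m) (i' m) (j' m) X i j),
    (∀ x, ∑ m, (g m).α ((f m).α x) = x) ∧ ∀ y, ∑ m, (g m).β ((f m).β y) = y

/-- `(X, i, j)` is a direct factor of `(Y, i', j')`. -/
def IsRetract (X : T.Var) (i j : ℤ) (Y : T.Var) (i' j' : ℤ) : Prop :=
  T.IsFactor X i j (fun _ : Fin 1 => Y) (fun _ => i') (fun _ => j')

end Regulators

/-- The known facts which are used. -/
structure IsRegulatorTheory {K : Type} [Field K] (T : Regulators K) : Prop where
  /-- Shapiro's lemma: a variety over `k` is a variety over `ℚ` -/
  overQ : ∀ X, ∃ Y, T.IsOverQ Y ∧ T.dim Y = T.dim X ∧ ∀ i j, T.IsRetract X i j Y i j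
  /-- Theorem of de Jong: there are an extension `k'` of `k` and a generically finite morphism to `X`
  from a variety over `k'` with a projective strictly semistable model over the ring of integers -/
  semistable : ∀ X, ∃ W, T.IsSemistable W ∧ ∀ i j, T.IsRetract X i j W i j
  /-- the products with projective spaces: multiplication with the class `h^s`, and then with
  `h^(n-s)` and push-forward -/
  projective : ∀ X (n s : ℤ), 0 ≤ s → s ≤ n → ∃ Y, T.dim Y = T.dim X + n ∧
    (T.IsOverQ X → T.IsOverQ Y) ∧ (T.IsSemistable X → T.IsSemistable Y) ∧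
    ∀ i j, T.IsRetract X i j Y (i + 2 * s) (j + s)
  /-- Borel, Soulé: Q1 holds for the spectra of number fields -/
  point : ∀ X, T.IsPoint X → ∀ i j, T.QOneFor X i j

end Pool.Agent.TH121.RG
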