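import Pool.Agent.TH121.RG.Defs

/-!
# `ℓ`-adic regulators and direct factors
-/

set_option autoImplicit false

namespace Pool.Agent.TH121.RG

namespace Regulators

variable {K : Type} [Field K] {T : Regulators K}

/-- Q1 passes to direct factors. -/
theorem qOneFor_of_isFactor {X : T.Var} {i j : ℤ} {n : ℕ} {Y : Fin n → T.Var} {i' j' : Fin n → ℤ}
    (h : T.IsFactor X i j Y i' j') (hY : ∀ m, T.QOneFor (Y m) (i' m) (j' m)) :
    T.QOneFor X i j := by
  obtain ⟨f, g, h1, h2⟩ := h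
  refine ⟨?_, fun y => ⟨fun hy => ?_, ?_⟩⟩
  · intro x x' hx
    rw [← h1 x, ← h1 x']
    refine Finset.sum_congr rfl fun m _ => ?_
    congr 1
    apply (hY m).1
    rw [← (f m).comm, ← (f m).comm, hx]
  · have h3 : ∀ m, ∃ z, T.r (Y m) (i' m) (j' m) z = (f m).β y := fun m =>
      ((hY m).2 _).1 ((f m).st y hy)
    choose z hz using h3
    refine ⟨∑ m, (g m).α (z m), ?_⟩
    rw [map_sum, ← h2 y]
    refine Finset.sum_congr rfl fun m _ => ?_
    rw [← (g m).comm, hz]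
  · rintro ⟨x, rfl⟩
    rw [← h1 x, map_sum]
    refine Submodule.sum_mem _ fun m _ => ?_
    rw [← (g m).comm]
    exact (g m).st _ (((hY m).2 _).2 ⟨_, rfl⟩)

theorem qOneFor_of_isRetract {X Y : T.Var} {i j i' j' : ℤ} (h : T.IsRetract X i j Y i' j')
    (hY : T.QOneFor Y i' j') : T.QOneFor X i j :=
  qOneFor_of_isFactor h fun _ => hY

/-- The reduction to the middle degree. -/
theorem middle (hT : IsRegulatorTheory T) (P : T.Var → Prop)
    (hP : ∀ X (n s : ℤ), 0 ≤ s → s ≤ n → P X → ∃ Y, T.dim Y = T.dim X + n ∧ P Y ∧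
      ∀ i j, T.IsRetract X i j Y (i + 2 * s) (j + s))
    (h : ∀ X i j, P X → i = T.dim X + 1 → T.QOneFor X i j) (X : T.Var) (hX : P X) (i j : ℤ) :
    T.QOneFor X i j := by
  obtain ⟨s, hs0, hs1⟩ : ∃ s : ℤ, 0 ≤ s ∧ T.dim X + 1 - i ≤ s :=
    ⟨max 0 (T.dim X + 1 - i), le_max_left _ _, le_max_right _ _⟩
  obtain ⟨Y, h1, h2, h3⟩ := hP X (i + 2 * s - 1 - T.dim X) s hs0 (by omega) hX
  exact qOneFor_of_isRetract (h3 i j) (h Y _ _ h2 (by omega))

/-- **The main theorem.** -/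
theorem main (hT : IsRegulatorTheory T) :
    (∀ (X : T.Var) (i j : ℤ) (n : ℕ) (Y : Fin n → T.Var) (i' j' : Fin n → ℤ),
      T.IsFactor X i j Y i' j' → (∀ m, T.IsPoint (Y m) ∨ T.QOneFor (Y m) (i' m) (j' m)) →
      T.QOneFor X i j) ∧
    ((∀ X i j, T.IsOverQ X → i = T.dim X + 1 → T.QOneFor X i j) → ∀ X i j, T.QOneFor X i j) ∧
    ((∀ X i j, T.IsSemistable X → i = T.dim X + 1 → T.QOneFor X i j) →
      ∀ X i j, T.QOneFor X i j) := by
  refine ⟨fun X i j n Y i' j' h hY => qOneFor_of_isFactor h fun m => ?_, fun h X i j => ?_,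
    fun h X i j => ?_⟩
  · exact (hY m).elim (fun h => hT.point _ h _ _) id
  · obtain ⟨Y, h1, -, h2⟩ := hT.overQ X
    refine qOneFor_of_isRetract (h2 i j) (middle hT T.IsOverQ ?_ h Y h1 i j)
    intro X n s hs hsn hX
    obtain ⟨Z, h3, h4, -, h5⟩ := hT.projective X n s hs hsn
    exact ⟨Z, h3, h4 hX, h5⟩
  · obtain ⟨W, h1, h2⟩ := hT.semistable X
    refine qOneFor_of_isRetract (h2 i j) (middle hT T.IsSemistable ?_ h W h1 i j)
    intro X n s hs hsn hX
    obtain ⟨Z, h3, -, h4, h5⟩ := hT.projective X n s hs hsn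
    exact ⟨Z, h3, h4 hX, h5⟩

end Regulators

end Pool.Agent.TH121.RG
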